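import Pool.Agent.helper21.OE.SpecB

/-!
# oe:WRQ, the period relations of level one

Helper file for MP_2e0e07_nt (project oe).
-/

namespace Pool.Agent.OE

open MvPolynomial Matrix

theorem WRQ_act {d t : ℤ} {κ : Type} [Field κ] {π : Oz d t →+* κ} {j : ℕ} {φ : Sy d t κ}
    (h : IsSym π j 1 (fun _ => 1) φ) (a b c e : Oz d t) (hu : IsUnit (a * e - b * c)) :
    act π !![a, b; c, e] (φ ![1, 0] ![0, 1]) = φ ![a, c] ![b, e] := by
  have hM : IsUnit (!![a, b; c, e] : Mat d t).det := by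
    rw [Matrix.det_fin_two_of]
    exact hu
  have h1 := h.equiv (Matrix.nonsingInvUnit !![a, b; c, e] hM) ![1, 0] ![0, 1] (by
    rw [Nat.cast_one]
    exact one_dvd _)
  have h2 : (Matrix.nonsingInvUnit !![a, b; c, e] hM).val = !![a, b; c, e] := rfl
  rw [h2, one_smul] at h1
  rw [← h1]
  have h3 : (!![a, b; c, e] : Mat d t) *ᵥ ![1, 0] = ![a, c] := by
    funext i
    fin_cases i <;> simp [Matrix.mulVec, dotProduct]
  have h4 : (!![a, b; c, e] : Mat d t) *ᵥ ![0, 1] = ![b, e] := by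
    funext i
    fin_cases i <;> simp [Matrix.mulVec, dotProduct]
  rw [h3, h4]

theorem WRQ_self {d t : ℤ} {κ : Type} [Field κ] {π : Oz d t →+* κ} {j : ℕ} {φ : Sy d t κ}
    (h : IsSym π j 1 (fun _ => 1) φ) (u : Vec d t) : φ u u = 0 := by
  by_cases hu : u = 0
  · rw [hu, h.zero_left]
  · have := h.add u u u hu hu hu
    exact left_eq_add.1 this.symm

theorem WRQ_swap {d t : ℤ} {κ : Type} [Field κ] {π : Oz d t →+* κ} {j : ℕ} {φ : Sy d t κ}
    (h : IsSym π j 1 (fun _ => 1) φ) (u v : Vec d t) (hu : u ≠ 0) (hv : v ≠ 0) :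
    φ v u = - φ u v := by
  have h1 := h.add u v u hu hv hu
  rw [WRQ_self h] at h1
  exact eq_neg_of_add_eq_zero_right h1

theorem WRQ_n0 {d t : ℤ} (a b : Oz d t) (h : a ≠ 0) : (![a, b] : Vec d t) ≠ 0 := by
  intro h0
  apply h
  have := congrFun h0 0
  simpa using this

theorem WRQ_n1 {d t : ℤ} (a b : Oz d t) (h : b ≠ 0) : (![a, b] : Vec d t) ≠ 0 := by
  intro h0
  apply h
  have := congrFun h0 1
  simpa using this

theorem WRQ_two (d t : ℤ) : (2 : Oz d t) ≠ 0 := by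
  intro h
  have h1 : ((2 : ℕ) : Oz d t) = 0 := by
    rw [Nat.cast_ofNat]
    exact h
  have h2 := congrArg QuadraticAlgebra.re h1
  rw [QuadraticAlgebra.re_natCast, QuadraticAlgebra.re_zero] at h2
  norm_num at h2

theorem WRQ (hMAN : MAN_stmt) : WRQ_stmt := by
  intro d t hE κ _ π j φ h
  have n10 : (![1, 0] : Vec d t) ≠ 0 := WRQ_n0 _ _ one_ne_zero
  have n01 : (![0, 1] : Vec d t) ≠ 0 := WRQ_n1 _ _ one_ne_zero
  have hneg : ∀ u : Vec d t, φ u ![-1, 0] = φ u ![1, 0] := by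
    intro u
    have e : (![-1, 0] : Vec d t) = (-1 : Oz d t) • ![1, 0] := by
      funext i
      fin_cases i <;> simp
    rw [e, h.smul_right _ _ _ (neg_ne_zero.2 one_ne_zero)]
  refine ⟨⟨h.hom _ _, ?_, ?_, ?_, ?_, ?_⟩, ?_⟩
  · intro u hu
    rw [WRQ_act h u 0 0 1 (by rw [mul_one, mul_zero, sub_zero]; exact hu)]
    have e : (![u, 0] : Vec d t) = u • ![1, 0] := by
      funext i
      fin_cases i <;> simp
    rw [e, h.smul_left _ _ _ hu.ne_zero]
  · rw [WRQ_act h 0 (-1) 1 0 (by rw [mul_zero, zero_sub, mul_one, neg_neg]; exact isUnit_one), hneg,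
      WRQ_swap h _ _ n10 n01]
  · rw [WRQ_act h 0 (-1) 1 1 (by rw [zero_mul, zero_sub, mul_one, neg_neg]; exact isUnit_one),
      WRQ_act h (-1) (-1) 1 0 (by rw [mul_zero, zero_sub, mul_one, neg_neg]; exact isUnit_one), hneg]
    have n3 : (![-1, 1] : Vec d t) ≠ 0 := WRQ_n1 _ _ one_ne_zero
    rw [h.add _ _ _ n10 n01 n3, h.add _ _ _ n10 n3 n10, WRQ_self h]
  · intro x y hxy
    have hm1 : IsUnit (-1 : Oz d t) := isUnit_one.neg
    rw [WRQ_act h 0 1 1 x (by rw [zero_mul, zero_sub, mul_one]; exact hm1),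
      WRQ_act h 1 y x 1 (by
        have e : (1 : Oz d t) * 1 - y * x = -1 := by linear_combination -hxy
        rw [e]; exact hm1),
      WRQ_act h y 1 1 0 (by rw [mul_zero, zero_sub, mul_one]; exact hm1)]
    have n1 : (![1, x] : Vec d t) ≠ 0 := WRQ_n0 _ _ one_ne_zero
    have n2 : (![y, 1] : Vec d t) ≠ 0 := WRQ_n1 _ _ one_ne_zero
    rw [h.add _ _ _ n10 n01 n1, h.add _ _ _ n10 n1 n2, h.add _ _ _ n10 n2 n10, WRQ_self h]
  · intro x y hxy
    have hm1 : IsUnit (-1 : Oz d t) := isUnit_one.neg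
    rw [WRQ_act h 0 1 1 y (by rw [zero_mul, zero_sub, mul_one]; exact hm1),
      WRQ_act h 1 x y 2 (by
        have e : (1 : Oz d t) * 2 - x * y = -1 := by linear_combination -hxy
        rw [e]; exact hm1),
      WRQ_act h x 2 2 y (by
        have e : x * y - 2 * 2 = (-1 : Oz d t) := by linear_combination hxy
        rw [e]; exact hm1),
      WRQ_act h 2 x y 1 (by
        have e : (2 : Oz d t) * 1 - x * y = -1 := by linear_combination -hxy
        rw [e]; exact hm1),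
      WRQ_act h x 1 1 0 (by rw [mul_zero, zero_sub, mul_one]; exact hm1)]
    have n1 : (![1, y] : Vec d t) ≠ 0 := WRQ_n0 _ _ one_ne_zero
    have n2 : (![x, 2] : Vec d t) ≠ 0 := WRQ_n1 _ _ (WRQ_two d t)
    have n3 : (![2, y] : Vec d t) ≠ 0 := WRQ_n0 _ _ (WRQ_two d t)
    have n4 : (![x, 1] : Vec d t) ≠ 0 := WRQ_n1 _ _ one_ne_zero
    rw [h.add _ _ _ n10 n01 n1, h.add _ _ _ n10 n1 n2, h.add _ _ _ n10 n2 n3, h.add _ _ _ n10 n3 n4,
      h.add _ _ _ n10 n4 n10, WRQ_self h]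
  · intro hg0
    have hall := hMAN d t hE φ ⟨h.zero_left, h.zero_right, h.add, h.smul_left, h.smul_right⟩ ⊥ (by
      intro γ
      rw [h.equiv γ _ _ (by rw [Nat.cast_one]; exact one_dvd _), one_smul, hg0, map_zero]
      exact AddSubgroup.zero_mem _)
    funext u v
    exact AddSubgroup.mem_bot.1 (hall u v)

end Pool.Agent.OE
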