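import Pool.Agent.helper21.OE.SpecB

/-!
# oe:WDQ, the dimension bound

Helper file for MP_2e0e07_nt (project oe).
-/

namespace Pool.Agent.OE

open MvPolynomial Matrix

/-- the functionals -/
noncomputable def WDQ_map {d t : ℤ} {κ : Type} [Field κ] (π : Oz d t →+* κ) (j s : ℕ)
    (F : Fin (s + 1) → (Pol κ →ₗ[κ] κ)) : Sym π j 1 (fun _ => 1) →ₗ[κ] (Fin (s + 1) → κ) where
  toFun φ := fun i => F i (φ.1 ![1, 0] ![0, 1])
  map_add' φ ψ := by
    funext i
    simp only [Submodule.coe_add, Pi.add_apply, map_add]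
  map_smul' c φ := by
    funext i
    simp only [Submodule.coe_smul, Pi.smul_apply, map_smul, RingHom.id_apply]

theorem WDQ (hWRQ : WRQ_stmt) : WDQ_stmt := by
  intro d t hE l κ _ π h0 j s hN
  obtain ⟨F, hF⟩ := hN π h0
  have hinj : Function.Injective (WDQ_map π j s F) := by
    rw [← LinearMap.ker_eq_bot, LinearMap.ker_eq_bot']
    intro φ hφ
    obtain ⟨hR, hz⟩ := hWRQ d t hE π j φ.1 φ.2
    have h1 : φ.1 ![1, 0] ![0, 1] = 0 := hF _ hR (fun i => congrFun hφ i)
    exact Subtype.ext (hz h1)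
  have := LinearMap.finrank_le_finrank_of_injective hinj
  rwa [Module.finrank_fin_fun] at this

end Pool.Agent.OE
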